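import Pool.Agent.H.MP_57deef_al.E

set_option autoImplicit false

namespace Pool.Agent.Results.MP_57deef_al.NotIntegrable

open Pool.Agent.H.MP_57deef_al

universe u

/-- Thompson's group F is not isomorphic to the derived subgroup of any group. -/
theorem result (F : Subgroup (ℝ ≃o ℝ))
    (hF : F = Subgroup.closure {f : ℝ ≃o ℝ | (∀ x, x ≤ 0 ∨ 1 ≤ x → f x = x) ∧
      ∃ B : Finset ℝ, (∀ b ∈ B, ∃ (k : ℤ) (n : ℕ), b = k / 2 ^ n) ∧
        ∀ x y : ℝ, 0 ≤ x → y ≤ 1 → (∀ b ∈ B, b ∉ Set.Ioo x y) →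
          ∃ (m : ℤ) (c : ℝ), ∀ z ∈ Set.Icc x y, f z = 2 ^ m * z + c})
    (H : Type u) [Group H] : IsEmpty (commutator H ≃* F) := by
  obtain rfl : F = Pool.Agent.H.MP_57deef_al.F := hF
  exact ⟨not_int ⟨Subtype.val_injective, hyp1, hyp0⟩⟩

end Pool.Agent.Results.MP_57deef_al.NotIntegrable
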